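import Pool.Agent.H94.AG.Asm
import Pool.Agent.H94.AG.Prob

/-!
# The strong Nine Dragon Tree conjecture for almost all graphs

The proportion of the graphs on `n` labelled vertices which satisfy the strong Nine Dragon Tree
conjecture for all `k, d ≥ 1` tends to `1`.
-/

namespace Pool.Agent.Results.MP_a0ac48_co.AlmostAllGraphs

open SimpleGraph Filter

/-- The fractional arboricity of `G` is at most `r`: every subgraph `H` with at least two vertices
satisfies `|E(H)| / (|V(H)| - 1) ≤ r`. -/
def FractionalArboricityLE {V : Type} (G : SimpleGraph V) (r : ℚ) : Prop :=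
  ∀ H : G.Subgraph, 2 ≤ H.verts.ncard →
    (H.edgeSet.ncard : ℚ) / ((H.verts.ncard : ℚ) - 1) ≤ r

/-- The graphs `F 0, ..., F (m - 1)` are a decomposition of `G` into `m` forests. -/
def IsForestDecomposition {V : Type} {m : ℕ} (G : SimpleGraph V) (F : Fin m → SimpleGraph V) :
    Prop :=
  (∀ i, (F i).IsAcyclic) ∧ (∀ i j, i ≠ j → Disjoint (F i).edgeSet (F j).edgeSet) ∧
    (⋃ i, (F i).edgeSet) = G.edgeSet

/-- The strong Nine Dragon Tree conjecture for the graph `G`: for all `k, d ≥ 1`, if the
fractional arboricity of `G` is at most `k + d / (k + d + 1)`, then `G` has a decomposition into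
`k + 1` forests, one of which has only components with at most `d` edges. -/
def StrongNineDragonTree {V : Type} (G : SimpleGraph V) : Prop :=
  ∀ k d : ℕ, 1 ≤ k → 1 ≤ d → FractionalArboricityLE G (k + d / (k + d + 1)) →
    ∃ F : Fin (k + 1) → SimpleGraph V, IsForestDecomposition G F ∧
      ∃ i, ∀ c : (F i).ConnectedComponent, c.toSimpleGraph.edgeSet.ncard ≤ d

open Pool.Agent.H94.ND Pool.Agent.H94.AG in
theorem of_good {n : ℕ} (hn : 1000 ≤ n) (G : SimpleGraph (Fin n)) (hG : Good G) :
    StrongNineDragonTree G := by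
  classical
  intro k d hk hd hfa
  -- density
  have hden : ∀ S : Set (Fin n), 2 ≤ S.ncard →
      (k + d + 1) * eIn G S ≤ (k * (k + d + 1) + d) * (S.ncard - 1) := by
    intro S hS
    have h1 := hfa ((⊤ : G.Subgraph).induce S) hS
    have h2 : ((⊤ : G.Subgraph).induce S).edgeSet = {e | e ∈ G.edgeSet ∧ ∀ v ∈ e, v ∈ S} := by
      ext e
      induction e using Sym2.ind with
      | _ a b =>
        rw [Subgraph.mem_edgeSet]
        constructor
        · rintro ⟨h3, h4, h5⟩
          refine ⟨h5, fun v hv => ?_⟩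
          rcases Sym2.mem_iff.1 hv with h6 | h6
          · exact h6 ▸ h3
          · exact h6 ▸ h4
        · rintro ⟨h3, h4⟩
          exact ⟨h4 a (Sym2.mem_mk_left a b), h4 b (Sym2.mem_mk_right a b), h3⟩
    rw [h2] at h1
    have h3 : ({e | e ∈ G.edgeSet ∧ ∀ v ∈ e, v ∈ S} : Set (Sym2 (Fin n))).ncard = eIn G S := rfl
    have h4 : ((⊤ : G.Subgraph).induce S).verts.ncard = S.ncard := rfl
    rw [h3, h4] at h1
    obtain ⟨s, hs⟩ : ∃ s, S.ncard = s + 1 := ⟨S.ncard - 1, by omega⟩
    rw [hs] at h1 ⊢
    have hs1 : (1 : ℚ) ≤ s := by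
      have : 1 ≤ s := by omega
      exact_mod_cast this
    push_cast at h1
    have h5 : ((s : ℚ) + 1 - 1) = s := by ring
    rw [h5, div_le_iff₀ (by linarith)] at h1
    have hp : (0 : ℚ) < k + d + 1 := by positivity
    have h6 : (k + d + 1 : ℚ) * eIn G S ≤ (k * (k + d + 1) + d) * s := by
      have h7 := mul_le_mul_of_nonneg_left h1 hp.le
      have h8 : (k + d + 1 : ℚ) * ((k + d / (k + d + 1)) * s) = (k * (k + d + 1) + d) * s := by
        field_simp
      linarith
    have h9 : s + 1 - 1 = s := by omega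
    rw [h9]
    exact_mod_cast h6
  have hone : ∀ S : Set (Fin n), S.ncard ≤ 1 → eIn G S = 0 := by
    intro S hS
    unfold eIn
    rw [Set.ncard_eq_zero (Set.toFinite _)]
    ext e
    induction e using Sym2.ind with
    | _ a b =>
      simp only [Set.mem_empty_iff_false, iff_false]
      rintro ⟨h1, h2⟩
      have h3 : G.Adj a b := h1
      have h4 := (Set.ncard_le_one (Set.toFinite S)).1 hS a (h2 a (Sym2.mem_mk_left a b)) b
        (h2 b (Sym2.mem_mk_right a b))
      exact h3.ne h4
  have hlt : ∀ S : Set (Fin n), 2 ≤ S.ncard → eIn G S < (k + 1) * (S.ncard - 1) := by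
    intro S hS
    have h1 := hden S hS
    obtain ⟨s, hs⟩ : ∃ s, S.ncard = s + 1 := ⟨S.ncard - 1, by omega⟩
    rw [hs] at h1 ⊢
    have h9 : s + 1 - 1 = s := by omega
    rw [h9] at h1 ⊢
    by_contra hcon
    push Not at hcon
    have hs1 : 1 ≤ s := by omega
    nlinarith [Nat.mul_le_mul_left (k + d + 1) hcon]
  exact det G hG (by rw [Nat.card_eq_fintype_card, Fintype.card_fin]; exact hn) k d hk hd hden
    hlt hone

/-- The strong Nine Dragon Tree conjecture holds for almost all graphs. -/
theorem result : Tendsto (fun n : ℕ =>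
    (Nat.card {G : SimpleGraph (Fin n) // StrongNineDragonTree G} : ℝ) /
      (Nat.card (SimpleGraph (Fin n)) : ℝ)) atTop (nhds 1) := by
  classical
  have h1 := Pool.Agent.H94.AG.prob
  have h2 : Tendsto (fun n : ℕ => 1 -
      (Nat.card {G : SimpleGraph (Fin n) // ¬ Pool.Agent.H94.AG.Good G} : ℝ) /
        Nat.card (SimpleGraph (Fin n))) atTop (nhds 1) := by
    have := h1.const_sub 1
    simpa using this
  refine tendsto_of_tendsto_of_tendsto_of_le_of_le' h2 tendsto_const_nhds ?_ ?_
  · filter_upwards [eventually_ge_atTop 1000] with n hn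
    have hpos : (0 : ℝ) < Nat.card (SimpleGraph (Fin n)) := by
      exact_mod_cast Nat.card_pos
    have h3 : Nat.card (SimpleGraph (Fin n)) ≤
        Nat.card {G : SimpleGraph (Fin n) // ¬ Pool.Agent.H94.AG.Good G} +
          Nat.card {G : SimpleGraph (Fin n) // StrongNineDragonTree G} := by
      have h4 : (Set.univ : Set (SimpleGraph (Fin n))) ⊆
          {G | ¬ Pool.Agent.H94.AG.Good G} ∪ {G | StrongNineDragonTree G} := by
        intro G _
        by_cases h5 : Pool.Agent.H94.AG.Good G
        · exact Or.inr (of_good hn G h5)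
        · exact Or.inl h5
      have h5 := Set.ncard_le_ncard h4 (Set.toFinite _)
      have h6 := Set.ncard_union_le {G : SimpleGraph (Fin n) | ¬ Pool.Agent.H94.AG.Good G}
        {G : SimpleGraph (Fin n) | StrongNineDragonTree G}
      rw [Set.ncard_univ] at h5
      exact h5.trans h6
    have h4 : (Nat.card (SimpleGraph (Fin n)) : ℝ) ≤
        Nat.card {G : SimpleGraph (Fin n) // ¬ Pool.Agent.H94.AG.Good G} +
          Nat.card {G : SimpleGraph (Fin n) // StrongNineDragonTree G} := by
      exact_mod_cast h3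
    rw [sub_le_iff_le_add, ← add_div, le_div_iff₀ hpos, one_mul]
    linarith
  · filter_upwards with n
    have hpos : (0 : ℝ) < Nat.card (SimpleGraph (Fin n)) := by
      exact_mod_cast Nat.card_pos
    rw [div_le_one hpos]
    have h3 : Nat.card {G : SimpleGraph (Fin n) // StrongNineDragonTree G} ≤
        Nat.card (SimpleGraph (Fin n)) :=
      Finite.card_subtype_le _
    exact_mod_cast h3

end Pool.Agent.Results.MP_a0ac48_co.AlmostAllGraphs
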