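import Pool.Agent.H94.ND.Core
import Pool.Agent.H94.ND.Base
import Pool.Agent.H94.ND.Comp

/-!
# The strong Nine Dragon Tree conjecture for graphs of excess at most `2d`

For all `k, d ≥ 1`, every finite simple graph `G` with fractional arboricity at most
`k + d / (k + d + 1)`, in which every connected subgraph `H` has at most
`k (|V(H)| - 1) + 2 d` edges, has a decomposition into `k + 1` forests, one of which has only
components with at most `d` edges.
-/

namespace Pool.Agent.Results.MP_a0ac48_co.BoundedExcess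

open SimpleGraph

/-- The fractional arboricity of `G` is at most `r`: every subgraph `H` with at least two vertices
satisfies `|E(H)| / (|V(H)| - 1) ≤ r`. -/
def FractionalArboricityLE {V : Type} (G : SimpleGraph V) (r : ℚ) : Prop :=
  ∀ H : G.Subgraph, 2 ≤ H.verts.ncard →
    (H.edgeSet.ncard : ℚ) / ((H.verts.ncard : ℚ) - 1) ≤ r

/-- The graphs `F 0, ..., F (m - 1)` are a decomposition of `G` into `m` forests. -/
def IsForestDecomposition {V : Type} {m : ℕ} (G : SimpleGraph V) (F : Fin m → SimpleGraph V) :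
    Prop :=
  (∀ i, (F i).IsAcyclic) ∧ (∀ i j, i ≠ j → Disjoint (F i).edgeSet (F j).edgeSet) ∧
    (⋃ i, (F i).edgeSet) = G.edgeSet

open Pool.Agent.H94.ND in
/-- The strong Nine Dragon Tree conjecture holds for graphs of excess at most `2 d`. -/
theorem result : ∀ (V : Type) [Finite V] (G : SimpleGraph V) (k d : ℕ), 1 ≤ k → 1 ≤ d →
    FractionalArboricityLE G (k + d / (k + d + 1)) →
    (∀ H : G.Subgraph, H.Connected →
      H.edgeSet.ncard ≤ k * (H.verts.ncard - 1) + 2 * d) →
    ∃ F : Fin (k + 1) → SimpleGraph V, IsForestDecomposition G F ∧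
      ∃ i, ∀ c : (F i).ConnectedComponent, c.toSimpleGraph.edgeSet.ncard ≤ d := by
  classical
  intro V _ G k d hk hd hfa hexc
  have := Fintype.ofFinite V
  -- density
  have hden : ∀ S : Set V, 2 ≤ S.ncard →
      (k + d + 1) * eIn G S ≤ (k * (k + d + 1) + d) * (S.ncard - 1) := by
    intro S hS
    have h1 := hfa ((⊤ : G.Subgraph).induce S) hS
    have h2 : ((⊤ : G.Subgraph).induce S).edgeSet = {e | e ∈ G.edgeSet ∧ ∀ v ∈ e, v ∈ S} := by
      ext e
      induction e using Sym2.ind with
      | _ a b =>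
        rw [Subgraph.mem_edgeSet]
        constructor
        · rintro ⟨h3, h4, h5⟩
          refine ⟨h5, fun v hv => ?_⟩
          rcases Sym2.mem_iff.1 hv with h6 | h6
          · exact h6 ▸ h3
          · exact h6 ▸ h4
        · rintro ⟨h3, h4⟩
          exact ⟨h4 a (Sym2.mem_mk_left a b), h4 b (Sym2.mem_mk_right a b), h3⟩
    rw [h2] at h1
    have h3 : ({e | e ∈ G.edgeSet ∧ ∀ v ∈ e, v ∈ S} : Set (Sym2 V)).ncard = eIn G S := rfl
    have h4 : ((⊤ : G.Subgraph).induce S).verts.ncard = S.ncard := rfl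
    rw [h3, h4] at h1
    obtain ⟨s, hs⟩ : ∃ s, S.ncard = s + 1 := ⟨S.ncard - 1, by omega⟩
    rw [hs] at h1 ⊢
    have hs1 : (1 : ℚ) ≤ s := by
      have : 1 ≤ s := by omega
      exact_mod_cast this
    push_cast at h1
    have h5 : ((s : ℚ) + 1 - 1) = s := by ring
    rw [h5, div_le_iff₀ (by linarith)] at h1
    have hp : (0 : ℚ) < k + d + 1 := by positivity
    have h6 : (k + d + 1 : ℚ) * eIn G S ≤ (k * (k + d + 1) + d) * s := by
      have h7 := mul_le_mul_of_nonneg_left h1 hp.le
      have h8 : (k + d + 1 : ℚ) * ((k + d / (k + d + 1)) * s) = (k * (k + d + 1) + d) * s := by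
        field_simp
      linarith
    have h9 : s + 1 - 1 = s := by omega
    rw [h9]
    exact_mod_cast h6
  have hone : ∀ S : Set V, S.ncard ≤ 1 → eIn G S = 0 := by
    intro S hS
    unfold eIn
    rw [Set.ncard_eq_zero (Set.toFinite _)]
    ext e
    induction e using Sym2.ind with
    | _ a b =>
      simp only [Set.mem_empty_iff_false, iff_false]
      rintro ⟨h1, h2⟩
      have h3 : G.Adj a b := h1
      have h4 := (Set.ncard_le_one (Set.toFinite S)).1 hS a (h2 a (Sym2.mem_mk_left a b)) b
        (h2 b (Sym2.mem_mk_right a b))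
      exact h3.ne h4
  have hlt : ∀ S : Set V, 2 ≤ S.ncard → eIn G S < (k + 1) * (S.ncard - 1) := by
    intro S hS
    have h1 := hden S hS
    obtain ⟨s, hs⟩ : ∃ s, S.ncard = s + 1 := ⟨S.ncard - 1, by omega⟩
    rw [hs] at h1 ⊢
    have h9 : s + 1 - 1 = s := by omega
    rw [h9] at h1 ⊢
    by_contra hcon
    push Not at hcon
    have hs1 : 1 ≤ s := by omega
    nlinarith [Nat.mul_le_mul_left (k + d + 1) hcon]
  obtain ⟨Z, m, hZG, hex, hst⟩ := base G k (by
    intro A hA
    by_cases h : 2 ≤ A.ncard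
    · exact (hlt A h).le
    · rw [hone A (by omega)]
      exact Nat.zero_le _)
  obtain ⟨φ, hv, hr⟩ := core G Z k d m hZG hex hst hlt (by
    intro S hS
    have h1 := hden S (by omega)
    obtain ⟨s, hs⟩ : ∃ s, S.ncard = s + 1 := ⟨S.ncard - 1, by omega⟩
    rw [hs] at h1 hS ⊢
    have h9 : s + 1 - 1 = s := by omega
    rw [h9] at h1 ⊢
    by_contra hcon
    push Not at hcon
    have h10 : k * s + (s + 1) ≤ eIn G S + 2 := hcon
    have h11 : d + 2 ≤ s := by omega
    nlinarith [Nat.mul_le_mul_left (k + d + 1) h10, Nat.mul_le_mul_left (k + 1) h11]) (by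
    intro c
    let H : G.Subgraph :=
      { verts := {u | Z.Reachable c u}
        Adj := fun u v => Z.Adj u v ∧ Z.Reachable c u
        adj_sub := fun h => hZG h.1
        edge_vert := fun h => h.2
        symm := ⟨fun u v h => ⟨h.1.symm, h.2.trans (Adj.reachable h.1)⟩⟩ }
    have hH : H.Connected := by
      rw [Subgraph.connected_iff]
      refine ⟨?_, ⟨c, Reachable.refl _⟩⟩
      have h1 : ∀ u, Z.Reachable c u → ∀ hu : u ∈ H.verts,
          H.coe.Reachable ⟨c, Reachable.refl _⟩ ⟨u, hu⟩ := by
        intro u hu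
        have hS : ∀ a b, Z.Adj a b →
            a ∈ {u | Z.Reachable c u ∧ ∀ hu : u ∈ H.verts,
              H.coe.Reachable ⟨c, Reachable.refl _⟩ ⟨u, hu⟩} →
            b ∈ {u | Z.Reachable c u ∧ ∀ hu : u ∈ H.verts,
              H.coe.Reachable ⟨c, Reachable.refl _⟩ ⟨u, hu⟩} := by
          intro a b hab ha
          refine ⟨ha.1.trans (Adj.reachable hab), fun hb => ?_⟩
          refine (ha.2 ha.1).trans (Adj.reachable ?_)
          exact ⟨hab, ha.1⟩
        exact (closed_reach hS hu ⟨Reachable.refl _, fun _ => Reachable.refl _⟩).2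
      refine ⟨fun u v => ?_⟩
      exact (h1 u.1 u.2 u.2).symm.trans (h1 v.1 v.2 v.2)
    have h2 := hexc H hH
    have h3 : H.edgeSet = {e | e ∈ Z.edgeSet ∧ ∀ v ∈ e, v ∈ {u | Z.Reachable c u}} := by
      ext e
      induction e using Sym2.ind with
      | _ a b =>
        rw [Subgraph.mem_edgeSet]
        constructor
        · rintro ⟨h4, h5⟩
          refine ⟨h4, fun v hv => ?_⟩
          rcases Sym2.mem_iff.1 hv with h6 | h6
          · exact h6 ▸ h5
          · exact h6 ▸ h5.trans (Adj.reachable h4)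
        · rintro ⟨h4, h5⟩
          exact ⟨h4, h5 a (Sym2.mem_mk_left a b)⟩
    rw [h3] at h2
    exact h2)
  refine ⟨fun i => cl G φ i, ⟨hv, ?_, ?_⟩, Fin.last k, ?_⟩
  · intro i j hij
    rw [Set.disjoint_left]
    intro e
    induction e using Sym2.ind with
    | _ a b =>
      intro h1 h2
      exact hij (h1.2.symm.trans h2.2)
  · ext e
    induction e using Sym2.ind with
    | _ a b =>
      rw [Set.mem_iUnion]
      constructor
      · rintro ⟨i, h1⟩
        exact h1.1
      · intro h1
        exact ⟨φ s(a, b), h1, rfl⟩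
  · intro c
    exact comp_edges (hv _) hr c

end Pool.Agent.Results.MP_a0ac48_co.BoundedExcess
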