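import Pool.Agent.H94.DI.Main
import Pool.Agent.H94.DI.Ham
import Pool.Agent.H94.DI.Cnt

/-!
# Small forests in graphs of minimum degree at least `n / 2 + 1`

For all `k, d ≥ 1`, a finite simple graph `G` on `n` vertices with minimum degree at least
`n / 2 + 1` has a decomposition into `k + 1` forests, one of which has only components with at
most `d` edges, if and only if `|E(G)| ≤ k (n - 1) + d n / (d + 1)`.
-/

namespace Pool.Agent.Results.MP_a0ac48_co.DiracGraphs

open SimpleGraph

/-- The graphs `F 0, ..., F (m - 1)` are a decomposition of `G` into `m` forests. -/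
def IsForestDecomposition {V : Type} {m : ℕ} (G : SimpleGraph V) (F : Fin m → SimpleGraph V) :
    Prop :=
  (∀ i, (F i).IsAcyclic) ∧ (∀ i j, i ≠ j → Disjoint (F i).edgeSet (F j).edgeSet) ∧
    (⋃ i, (F i).edgeSet) = G.edgeSet

/-- For graphs of minimum degree at least `n / 2 + 1` the necessary count of the edges is also
sufficient for a decomposition into `k + 1` forests, one of which has only components with at most
`d` edges. -/
theorem result : ∀ (V : Type) [Finite V] [Nonempty V] (G : SimpleGraph V) (k d : ℕ),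
    1 ≤ k → 1 ≤ d →
    (∀ v : V, (Nat.card V : ℚ) / 2 + 1 ≤ ((G.neighborSet v).ncard : ℚ)) →
    ((∃ F : Fin (k + 1) → SimpleGraph V, IsForestDecomposition G F ∧
        ∃ i, ∀ c : (F i).ConnectedComponent, c.toSimpleGraph.edgeSet.ncard ≤ d) ↔
      (G.edgeSet.ncard : ℚ) ≤ k * ((Nat.card V : ℚ) - 1) + d * (Nat.card V : ℚ) / (d + 1)) := by
  classical
  intro V _ _ G k d hk hd hmin
  have := Fintype.ofFinite V
  have hpos : 1 ≤ Nat.card V := Nat.card_pos
  have hdeg : ∀ v, Nat.card V + 2 ≤ 2 * (G.neighborSet v).ncard := by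
    intro v
    have h1 := hmin v
    have h2 : (Nat.card V : ℚ) + 2 ≤ 2 * ((G.neighborSet v).ncard : ℚ) := by linarith
    exact_mod_cast h2
  obtain ⟨n, hn⟩ : ∃ n, Nat.card V = n + 1 := ⟨Nat.card V - 1, by omega⟩
  have hd0 : (0 : ℚ) < d + 1 := by positivity
  -- the condition in natural numbers
  have hcond : ∀ E : ℕ, ((E : ℚ) ≤ k * ((Nat.card V : ℚ) - 1) + d * (Nat.card V : ℚ) / (d + 1)) ↔
      (d + 1) * E ≤ (d + 1) * (k * n) + d * (n + 1) := by
    intro E
    rw [hn]
    push_cast
    have h1 : (k : ℚ) * ((n : ℚ) + 1 - 1) + d * ((n : ℚ) + 1) / (d + 1) =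
        ((d + 1) * (k * n) + d * (n + 1)) / (d + 1) := by
      field_simp
      ring
    rw [h1, le_div_iff₀ hd0]
    constructor
    · intro h2
      have h3 : ((d : ℚ) + 1) * E ≤ (d + 1) * (k * n) + d * (n + 1) := by linarith
      exact_mod_cast h3
    · intro h2
      have h3 : ((d : ℚ) + 1) * E ≤ (d + 1) * (k * n) + d * (n + 1) := by exact_mod_cast h2
      linarith
  constructor
  swap
  · intro h1
    rw [hcond] at h1
    obtain ⟨e, hinj, hadj⟩ := Pool.Agent.H94.DI.ham G hdeg
    obtain ⟨k', rfl⟩ : ∃ k', k = k' + 1 := ⟨k - 1, by omega⟩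
    refine Pool.Agent.H94.DI.decomp G k' d e hinj hadj hpos hdeg ?_
    rw [hn] at *
    have h2 : n + 1 - 1 = n := by omega
    rw [h2]
    have h3 := Nat.div_mul_le_self (n + 1 + d) (d + 1)
    set q := (n + 1 + d) / (d + 1) with hq
    by_contra hcon
    push Not at hcon
    have h4 : (k' + 1) * n + (n + 1) + 1 ≤ G.edgeSet.ncard + q := hcon
    nlinarith [Nat.mul_le_mul_left (d + 1) h4]
  · rintro ⟨F, ⟨hF1, -, hF3⟩, i0, hi0⟩
    rw [hcond]
    have h1 : G.edgeSet.ncard ≤ ∑ i : Fin (k + 1), (F i).edgeSet.ncard := by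
      have h2 : G.edgeSet.toFinset ⊆
          Finset.univ.biUnion (fun i => (F i).edgeSet.toFinset) := by
        intro x hx
        rw [Set.mem_toFinset, ← hF3, Set.mem_iUnion] at hx
        obtain ⟨i, hi⟩ := hx
        exact Finset.mem_biUnion.2 ⟨i, Finset.mem_univ _, Set.mem_toFinset.2 hi⟩
      have h3 := (Finset.card_le_card h2).trans Finset.card_biUnion_le
      rw [← Set.ncard_eq_toFinset_card'] at h3
      refine h3.trans (le_of_eq (Finset.sum_congr rfl fun i _ => ?_))
      rw [Set.ncard_eq_toFinset_card']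
    have h2 := Pool.Agent.H94.DI.small_forest (F i0) (hF1 i0) d hi0
    rw [← Finset.add_sum_erase _ _ (Finset.mem_univ i0)] at h1
    have h3 : ∑ i ∈ Finset.univ.erase i0, (F i).edgeSet.ncard ≤ k * n := by
      have h4 : ∀ i ∈ Finset.univ.erase i0, (F i).edgeSet.ncard ≤ n := by
        intro i _
        have := Pool.Agent.H94.DI.forest_le (F i) (hF1 i) hpos
        omega
      have h5 := Finset.sum_le_card_nsmul _ _ _ h4
      rw [Finset.card_erase_of_mem (Finset.mem_univ _), Finset.card_univ, Fintype.card_fin] at h5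
      simpa using h5
    rw [hn] at h2
    nlinarith

end Pool.Agent.Results.MP_a0ac48_co.DiracGraphs
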