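import Pool.Agent.H13.SndtFinal

/-!
# The strong Nine Dragon Tree conjecture for graphs of treewidth at most two

For all `k, d ≥ 1`, every finite simple graph `G` of treewidth at most two with fractional
arboricity at most `k + d / (k + d + 1)` has a decomposition into `k + 1` forests, one of which
has only components with at most `d` edges.
-/

namespace Pool.Agent.Results.MP_a0ac48_co.TreewidthTwo

open SimpleGraph

/-- The fractional arboricity of `G` is at most `r`: every subgraph `H` with at least two vertices
satisfies `|E(H)| / (|V(H)| - 1) ≤ r`. -/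
def FractionalArboricityLE {V : Type} (G : SimpleGraph V) (r : ℚ) : Prop :=
  ∀ H : G.Subgraph, 2 ≤ H.verts.ncard →
    (H.edgeSet.ncard : ℚ) / ((H.verts.ncard : ℚ) - 1) ≤ r

/-- The graphs `F 0, ..., F (m - 1)` are a decomposition of `G` into `m` forests. -/
def IsForestDecomposition {V : Type} {m : ℕ} (G : SimpleGraph V) (F : Fin m → SimpleGraph V) :
    Prop :=
  (∀ i, (F i).IsAcyclic) ∧ (∀ i j, i ≠ j → Disjoint (F i).edgeSet (F j).edgeSet) ∧
    (⋃ i, (F i).edgeSet) = G.edgeSet

/-- Treewidth at most `t`: the graph `G` is a subgraph of a graph `H` whose vertices can be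
ordered in such a way that for each vertex the `H`-neighbours preceding it form a clique of `H`
with at most `t` elements. -/
def TreewidthLE {V : Type} (G : SimpleGraph V) (t : ℕ) : Prop :=
  ∃ (H : SimpleGraph V) (ord : V → ℕ), G ≤ H ∧ Function.Injective ord ∧
    ∀ v, H.IsClique {u | H.Adj u v ∧ ord u < ord v} ∧ {u | H.Adj u v ∧ ord u < ord v}.ncard ≤ t

/-- The strong Nine Dragon Tree conjecture holds for graphs of treewidth at most two. -/
theorem result : ∀ (V : Type) [Finite V] (G : SimpleGraph V), TreewidthLE G 2 →
    ∀ k d : ℕ, 1 ≤ k → 1 ≤ d → FractionalArboricityLE G (k + d / (k + d + 1)) →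
    ∃ F : Fin (k + 1) → SimpleGraph V, IsForestDecomposition G F ∧
      ∃ i, ∀ c : (F i).ConnectedComponent, c.toSimpleGraph.edgeSet.ncard ≤ d := by
  classical
  intro V _ G hT k d hk hd hfa
  have := Fintype.ofFinite V
  obtain ⟨H, ord, hGH, hinj, hcl⟩ := hT
  by_cases hk1 : k = 1
  · subst hk1
    obtain ⟨A, B, hA, hB, h1, h2, h3⟩ :=
      Pool.Agent.H13.Sndt.exists_two hd G H ord hGH hinj hcl (by
        intro K hK
        have := hfa K hK
        push_cast at this
        exact this)
    refine ⟨![A, B], ⟨?_, ?_, ?_⟩, 1, ?_⟩
    · intro i
      fin_cases i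
      · exact hA
      · exact hB
    · have hdis : Disjoint A.edgeSet B.edgeSet := by
        rw [Set.disjoint_left]
        intro e
        induction e using Sym2.ind with
        | _ a b => exact fun h4 h5 => h2 a b h4 h5
      intro i j hij
      fin_cases i <;> fin_cases j
      · exact absurd rfl hij
      · exact hdis
      · exact hdis.symm
      · exact absurd rfl hij
    · ext e
      induction e using Sym2.ind with
      | _ a b =>
        rw [Set.mem_iUnion, mem_edgeSet, h1]
        constructor
        · rintro ⟨i, hi⟩
          fin_cases i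
          · exact Or.inl hi
          · exact Or.inr hi
        · rintro (hi | hi)
          · exact ⟨0, hi⟩
          · exact ⟨1, hi⟩
    · intro c
      exact Pool.Agent.H13.Sndt.comp_edges hB h3 c
  · have hsub : ∀ v, {u | G.Adj u v ∧ ord u < ord v}.ncard ≤ 2 := by
      intro v
      refine le_trans (Set.ncard_le_ncard ?_ (Set.toFinite _)) (hcl v).2
      intro u hu
      exact ⟨hGH hu.1, hu.2⟩
    obtain ⟨A, B, hA, hB, h1, h2⟩ := Pool.Agent.H13.Sndt.two_forests ord hinj hsub
    have h0k : 0 < k + 1 := by omega
    have h1k : 1 < k + 1 := by omega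
    have h2k : 2 < k + 1 := by omega
    refine ⟨fun i => if i.val = 0 then A else if i.val = 1 then B else ⊥, ⟨?_, ?_, ?_⟩,
      ⟨2, h2k⟩, ?_⟩
    · intro i
      dsimp only
      split_ifs
      · exact hA
      · exact hB
      · exact isAcyclic_bot
    · have hdis : Disjoint A.edgeSet B.edgeSet := by
        rw [Set.disjoint_left]
        intro e
        induction e using Sym2.ind with
        | _ a b => exact fun h4 h5 => h2 a b h4 h5
      intro i j hij
      have hne : i.val ≠ j.val := fun h => hij (Fin.ext h)
      dsimp only
      split_ifs with c1 c2 c3 c4 c5 c6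
      · omega
      · exact hdis
      · simp
      · exact hdis.symm
      · omega
      · simp
      · simp
      · simp
      · simp
    · ext e
      induction e using Sym2.ind with
      | _ a b =>
        rw [Set.mem_iUnion, mem_edgeSet, h1]
        constructor
        · rintro ⟨i, hi⟩
          dsimp only at hi
          split_ifs at hi
          · exact Or.inl hi
          · exact Or.inr hi
          · exact absurd hi (by simp)
        · rintro (hi | hi)
          · exact ⟨⟨0, h0k⟩, by simpa using hi⟩
          · exact ⟨⟨1, h1k⟩, by simpa using hi⟩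
    · intro c
      have : c.toSimpleGraph.edgeSet = ∅ := by
        ext e
        induction e using Sym2.ind with
        | _ a b =>
          simp only [mem_edgeSet, Set.mem_empty_iff_false, iff_false]
          intro h
          have h' : (⊥ : SimpleGraph V).Adj (a : V) (b : V) := h
          exact (SimpleGraph.bot_adj _ _).1 h'
      rw [this]
      simp

end Pool.Agent.Results.MP_a0ac48_co.TreewidthTwo
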